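import Pool.Agent.Helper9.UP.StS

/-! # Project UP (MP_d466de_nt), module LV: the level -/

set_option autoImplicit false

noncomputable section

namespace Pool.Agent.Helper41.UP

open Finset Pool.Agent.Helper9.UP
open Pool.Agent.Helper18.TR (idx Qi)

private theorem LV_idx_le (w p : ℕ) : idx w p ≤ w :=
  (Nat.log_le_self _ _).trans (Nat.log_le_self _ _)

private theorem LV_pow_le {w p : ℕ} (hp : p.Prime) (hpw : p ≤ w) : p ^ (2 ^ idx w p) ≤ w := by
  have h1 : 1 ≤ Nat.log p w := (Nat.log_pos hp.one_lt hpw)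
  have h2 : 2 ^ idx w p ≤ Nat.log p w := Nat.pow_log_le_self 2 (by omega)
  have hw : w ≠ 0 := by have := hp.pos; omega
  exact (Nat.pow_le_pow_right hp.pos h2).trans (Nat.pow_log_le_self p hw)

private theorem LV_card {w : ℕ} {β : ℕ → ℕ} {Q T : Finset ℕ} (hT : T ∈ fb0 w β Q ∪ fb1 w β Q) :
    T ⊆ Q ∧ ∀ i ∈ range (w + 1), (Qi w T i).card ≤ β i + 1 := by
  classical
  rcases mem_union.1 hT with h | h
  · unfold fb0 at h
    simp only [mem_filter, mem_powerset] at h
    exact ⟨h.1, fun i hi => (h.2 i hi).trans (by omega)⟩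
  · unfold fb1 at h
    simp only [mem_filter, mem_powerset] at h
    obtain ⟨h1, i, hi, h2, h3⟩ := h
    refine ⟨h1, fun j hj => ?_⟩
    by_cases hji : j = i
    · rw [hji, h2]
    · exact (h3 j hj hji).trans (by omega)

/-- the level -/
theorem hLV : StLV := by
  intro w β Q hw hQ T hT
  obtain ⟨hTQ, hc⟩ := LV_card hT
  have hw0 : (0 : ℝ) < w := by exact_mod_cast hw
  have hlw : 0 ≤ Real.log w := Real.log_nonneg (by exact_mod_cast hw)
  have hTp : ∀ p ∈ T, p.Prime ∧ p ≤ w := fun p hp => hQ p (hTQ hp)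
  rw [← sum_fiberwise_of_maps_to (s := T) (t := range (w + 1)) (g := idx w)
    (fun p _ => mem_range.2 (Nat.lt_succ_of_le (LV_idx_le w p)))]
  refine sum_le_sum fun i hi => ?_
  have h2 : ∀ p ∈ T.filter (fun p => idx w p = i), Real.log (p : ℝ) ≤ Real.log w / 2 ^ i := by
    intro p hp
    rw [mem_filter] at hp
    have h3 := LV_pow_le (hTp p hp.1).1 (hTp p hp.1).2
    rw [hp.2] at h3
    have hp0 : (0 : ℝ) < p := by exact_mod_cast (hTp p hp.1).1.pos
    have h4 : Real.log ((p : ℝ) ^ (2 ^ i)) ≤ Real.log w :=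
      Real.log_le_log (by positivity) (by exact_mod_cast h3)
    rw [Real.log_pow] at h4
    rw [le_div_iff₀ (by positivity)]
    push_cast at h4
    linarith
  refine (sum_le_card_nsmul _ _ _ h2).trans ?_
  rw [nsmul_eq_mul]
  have h5 : ((T.filter (fun p => idx w p = i)).card : ℝ) ≤ (β i : ℝ) + 1 := by
    have := hc i hi
    rw [Qi] at this
    exact_mod_cast this
  exact mul_le_mul_of_nonneg_right h5 (by positivity)

end Pool.Agent.Helper41.UP
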